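import Pool.Agent.Q293.PS.Main

/-!
# Prophet secretary with one quantile query on the maximum (MP_47c63b_lc, Q1)

A strategy of the single-query model with competitive ratio at least `0.634 > 1 - 1/e`. It asks
for the value `v` exceeded by the maximum with probability `5 / 8`, accepts every value above
`v`, and, at the last `n / 20 + 1` positions, also every record that is at least `9 / 10` of `v`.
-/

open MeasureTheory Q293.PS

namespace Pool.Agent.Results.MP_47c63b_lc.SingleQuery

lemma opt_pos {n : ℕ} {D : Fin n → Measure ℝ} (h : IsInstance D) : 0 < opt D := by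
  have hprob := h.prob
  have hn := h.pos
  have hne : Nonempty (Fin n) := ⟨⟨0, hn⟩⟩
  have h1 : ∀ᵐ x ∂Measure.pi D, 0 < ⨆ i, x i := by
    filter_upwards [ae_pos h ⟨0, hn⟩] with x hx
    exact lt_of_lt_of_le hx (le_ciSup (Set.finite_range x).bddAbove _)
  have h2 : 0 ≤ opt D := integral_nonneg_of_ae (h1.mono fun x hx => hx.le)
  refine lt_of_le_of_ne h2 fun h3 => ?_
  have h4 := (integral_eq_zero_iff_of_nonneg_ae (h1.mono fun x hx => hx.le) h.integrable).1 h3.symm
  obtain ⟨x, hx1, hx2⟩ := (h1.and h4).exists
  have hx3 : (⨆ i, x i) = 0 := hx2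
  rw [hx3] at hx1
  exact lt_irrefl _ hx1

/-- the uniform distribution on `[0, 1]`, for `n = 1` -/
noncomputable def unif : Fin 1 → Measure ℝ := fun _ => volume.restrict (Set.Icc 0 1)

lemma prob_unif (i : Fin 1) : IsProbabilityMeasure (unif i) := by
  constructor
  simp [unif]

lemma isInstance_unif : IsInstance unif where
  pos := le_rfl
  prob := prob_unif
  noAtoms i t := by simp [unif]
  nonneg i := by
    have : Set.Iio (0 : ℝ) ∩ Set.Icc 0 1 = ∅ := by
      ext t; simp only [Set.mem_inter_iff, Set.mem_Iio, Set.mem_Icc, Set.mem_empty_iff_false,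
        iff_false, not_and]
      intro h1 h2 _; linarith
    rw [unif, Measure.restrict_apply measurableSet_Iio, this, measure_empty]
  integrable := by
    have hprob := prob_unif
    have h1 : ∀ x : Fin 1 → ℝ, (⨆ i, x i) = x 0 := fun x => by
      rw [ciSup_unique]; rfl
    simp_rw [h1]
    have h2 : Integrable (fun t : ℝ => t) (unif 0) := by
      have : IntegrableOn (fun t : ℝ => t) (Set.Icc 0 1) volume :=
        continuous_id.integrableOn_Icc
      exact this
    exact ((measurePreserving_eval unif 0).integrable_comp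
      (g := fun t : ℝ => t) measurable_id.aestronglyMeasurable).2 h2

lemma isAnswer_unif : IsAnswer unif (5 / 8) (3 / 8) := by
  have hprob := prob_unif
  unfold IsAnswer
  have h1 : {x : Fin 1 → ℝ | 3 / 8 < ⨆ i, x i} = Set.univ.pi fun _ => Set.Ioi (3 / 8) := by
    ext x
    rw [Set.mem_ofPred_eq, ciSup_unique]
    simp only [Set.mem_pi, Set.mem_univ, forall_const, Set.mem_Ioi]
    constructor
    · intro h i
      rwa [Subsingleton.elim i default]
    · intro h
      exact h _
  have h2 : Set.Ioi (3 / 8 : ℝ) ∩ Set.Icc 0 1 = Set.Ioc (3 / 8) 1 := by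
    ext t; simp only [Set.mem_inter_iff, Set.mem_Ioi, Set.mem_Icc, Set.mem_Ioc]
    constructor
    · rintro ⟨h1, h2, h3⟩; exact ⟨h1, h3⟩
    · rintro ⟨h1, h3⟩; exact ⟨h1, by linarith, h3⟩
  rw [h1, measureReal_def, Measure.pi_pi, Fin.prod_univ_one]
  rw [unif, Measure.restrict_apply measurableSet_Ioi, h2, Real.volume_Ioc,
    ENNReal.toReal_ofReal (by norm_num)]
  norm_num

/-- **There is a strategy with one quantile query on the maximum whose competitive ratio is
strictly greater than `1 - 1/e`**: for every instance and every correct answer of the query it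
gains at least `0.634` times the expected maximum. -/
theorem result : ∃ A : Strategy,
    (∀ (n : ℕ) (D : Fin n → Measure ℝ) (v : ℝ), IsInstance D → IsAnswer D (A.q n) v →
      634 / 1000 * opt D ≤ alg A D v) ∧
    634 / 1000 ≤ ratio A ∧ 1 - 1 / Real.exp 1 < ratio A := by
  refine ⟨strat, fun n D v h hv => main_ineq h v hv, ?_⟩
  have h1 : 634 / 1000 ≤ ratio strat := by
    unfold ratio
    refine le_csInf ?_ ?_
    · exact ⟨_, 1, unif, 3 / 8, isInstance_unif, isAnswer_unif, opt_pos isInstance_unif, rfl⟩
    · rintro r ⟨n, D, v, hD, hv, hpos, rfl⟩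
      rw [le_div_iff₀ hpos]
      exact main_ineq hD v hv
  refine ⟨h1, lt_of_lt_of_le ?_ h1⟩
  have h2 := Real.exp_one_lt_d9
  have h3 : (0.367 : ℝ) < 1 / Real.exp 1 := by
    rw [lt_div_iff₀ (Real.exp_pos 1)]; norm_num at h2 ⊢; linarith
  norm_num at h3 ⊢
  linarith

end Pool.Agent.Results.MP_47c63b_lc.SingleQuery
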